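import Pool.Agent.W2helper1.DG.Stm

set_option autoImplicit false

namespace Pool.Agent.W2helper1.DG

open Set
open Pool.Agent.Results.MP_2da123_co.DimSix (IsGraphOf IsPolytopal joinComplete dJoin
  exposed_segment extremePoints_eq not_exposed)

theorem gen : S_GEN := by
  intro d U _ hne H p hspan hV hE hN
  classical
  have hinj : Function.Injective p := by
    intro u w huw
    by_contra hne
    obtain ⟨l, b, h0, hpos⟩ := hV u
    have h2 := hpos w (Ne.symm hne)
    rw [← huw] at h2
    linarith
  have hext : range p = (convexHull ℝ (range p)).extremePoints ℝ := by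
    apply extremePoints_eq
    intro u
    exact hV u
  refine ⟨convexHull ℝ (range p), p, ⟨(finite_range p).toFinset, by simp⟩, ?_, hinj, hext, ?_⟩
  · rw [interior_convexHull_nonempty_iff_affineSpan_eq_top]
    obtain ⟨u0⟩ := hne
    have hnonempty : (affineSpan ℝ (range p) : Set _).Nonempty :=
      ⟨p u0, subset_affineSpan ℝ _ (mem_range_self u0)⟩
    by_contra hcon
    have hdir : (affineSpan ℝ (range p)).direction < ⊤ := by
      rw [lt_top_iff_ne_top]
      intro hd
      exact hcon ((AffineSubspace.direction_eq_top_iff_of_nonempty hnonempty).1 hd)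
    obtain ⟨g, hg0, hg⟩ := Submodule.exists_le_ker_of_lt_top _ hdir
    have hconst : ∀ u, g (p u) = g (p u0) := by
      intro u
      have : p u -ᵥ p u0 ∈ (affineSpan ℝ (range p)).direction :=
        AffineSubspace.vsub_mem_direction (subset_affineSpan ℝ _ (mem_range_self u))
          (subset_affineSpan ℝ _ (mem_range_self u0))
      have h2 := hg this
      rw [LinearMap.mem_ker, vsub_eq_sub, map_sub] at h2
      linarith
    have h1 := hspan (LinearMap.toContinuousLinearMap g) (-(g (p u0))) (fun u => by
      simp only [LinearMap.coe_toContinuousLinearMap']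
      rw [hconst u]; ring)
    apply hg0
    ext x
    have := DFunLike.congr_fun h1 x
    simpa using this
  · intro u v
    constructor
    · intro huv
      refine ⟨huv.ne, ?_⟩
      obtain ⟨l0, b0, hu0, hv0, hw0⟩ := hE u v huv
      obtain ⟨lu, bu, hlu, hluw⟩ := hV u
      obtain ⟨lv, bv, hlv, hlvw⟩ := hV v
      have hFuv : 0 < lu (p v) + bu := hluw v huv.ne'
      have hFvu : 0 < lv (p u) + bv := hlvw u huv.ne
      let α : ℝ := -(l0 (p u) + b0) / (lv (p u) + bv)
      let β : ℝ := -(l0 (p v) + b0) / (lu (p v) + bu)
      have hα : 0 ≤ α := div_nonneg (by linarith) hFvu.le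
      have hβ : 0 ≤ β := div_nonneg (by linarith) hFuv.le
      have hα' : α * (lv (p u) + bv) = -(l0 (p u) + b0) := div_mul_cancel₀ _ hFvu.ne'
      have hβ' : β * (lu (p v) + bu) = -(l0 (p v) + b0) := div_mul_cancel₀ _ hFuv.ne'
      refine exposed_segment p u v (l0 + α • lv + β • lu) (b0 + α * bv + β * bu) ?_ ?_
        fun w hwu hwv => ?_
      · simp only [ContinuousLinearMap.add_apply, ContinuousLinearMap.smul_apply, smul_eq_mul]
        linear_combination hα' + β * hlu
      · simp only [ContinuousLinearMap.add_apply, ContinuousLinearMap.smul_apply, smul_eq_mul]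
        linear_combination hβ' + α * hlv
      · simp only [ContinuousLinearMap.add_apply, ContinuousLinearMap.smul_apply, smul_eq_mul]
        have h1 := hw0 w hwu hwv
        have h2 := mul_nonneg hα (hlvw w hwv).le
        have h3 := mul_nonneg hβ (hluw w hwu).le
        linarith
    · rintro ⟨hne, hexp⟩
      by_contra hadj
      obtain ⟨a, b, c, w, hwu, hwv, hc, hcw, hsum, hcomb⟩ := hN u v hne hadj
      exact not_exposed p hinj hext u v w hwu hwv a b c hc hcw hsum hcomb hexp

end Pool.Agent.W2helper1.DG
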