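import Pool.Agent.Results.MP_2da123_co.DimSix

/-!
# Project DG (helper1): MP_2da123_co

`d(G) ≤ 5` for every finite graph `G`, and `d(G) ≤ 3` exactly for the graphs with at most two vertices,
the paths and the graphs with a non-crossing Hamilton cycle. Statements of the pieces.
-/

set_option autoImplicit false

namespace Pool.Agent.W2helper1.DG

open Set
open Pool.Agent.Results.MP_2da123_co.DimSix (IsGraphOf IsPolytopal joinComplete dJoin)

/-- `H` has a Hamilton cycle `c 0, c 1, …` such that no two edges of `H` cross when the vertices are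
put on a circle in this order. -/
def Outer {W : Type} (H : SimpleGraph W) : Prop :=
  ∃ (m : ℕ) (c : Fin (m + 3) ≃ W), (∀ i, H.Adj (c i) (c (i + 1))) ∧
    ∀ i j k l : Fin (m + 3), i < j → j < k → k < l → ¬ (H.Adj (c i) (c k) ∧ H.Adj (c j) (c l))

/-- `H` is a path. -/
def IsPathG {W : Type} (H : SimpleGraph W) : Prop :=
  ∃ (m : ℕ) (c : Fin m ≃ W), ∀ i j : Fin m,
    H.Adj (c i) (c j) ↔ (i.val + 1 = j.val ∨ j.val + 1 = i.val)

/-- GEN: a criterion for `IsPolytopal`. -/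
def S_GEN : Prop := ∀ (d : ℕ) (U : Type) [Fintype U] [Nonempty U] (H : SimpleGraph U)
    (p : U → EuclideanSpace ℝ (Fin d)),
  (∀ (l : EuclideanSpace ℝ (Fin d) →L[ℝ] ℝ) (b : ℝ), (∀ u, l (p u) + b = 0) → l = 0) →
  (∀ u, ∃ (l : EuclideanSpace ℝ (Fin d) →L[ℝ] ℝ) (b : ℝ), l (p u) + b = 0 ∧
    ∀ w, w ≠ u → 0 < l (p w) + b) →
  (∀ u v, H.Adj u v → ∃ (l : EuclideanSpace ℝ (Fin d) →L[ℝ] ℝ) (b : ℝ),
    l (p u) + b ≤ 0 ∧ l (p v) + b ≤ 0 ∧ ∀ w, w ≠ u → w ≠ v → 0 < l (p w) + b) →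
  (∀ u v, u ≠ v → ¬ H.Adj u v → ∃ (a b : ℝ) (c : U → ℝ) (w : U), w ≠ u ∧ w ≠ v ∧
    (∀ x, 0 ≤ c x) ∧ 0 < c w ∧ ∑ x, c x = a + b ∧ a • p u + b • p v = ∑ x, c x • p x) →
  IsPolytopal d H

/-- L3a: `G + K_1` is `3`-polytopal only if `G` is outerplanar with a Hamilton cycle. -/
def S_L3a : Prop := ∀ (V : Type) [Fintype V] (G : SimpleGraph V),
  IsPolytopal 3 (joinComplete G 1) → Outer G

/-- the determinant of three vectors -/
def D3 (a b c : Fin 3 → ℝ) : ℝ :=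
  a 0 * (b 1 * c 2 - b 2 * c 1) - a 1 * (b 0 * c 2 - b 2 * c 0) + a 2 * (b 0 * c 1 - b 1 * c 0)

/-- L3lin: vectors in strictly convex position (as rays in `ℝ³`) can be put in a circular order. -/
def S_L3lin : Prop := ∀ (V : Type) [Fintype V] (x : V → Fin 3 → ℝ) (m : ℕ),
  Fintype.card V = m + 3 →
  (∀ v, ∃ l : (Fin 3 → ℝ) →ₗ[ℝ] ℝ, l (x v) = 0 ∧ ∀ u, u ≠ v → 0 < l (x u)) →
  ∃ c : Fin (m + 3) ≃ V, ∀ i j k : Fin (m + 3), i < j → j < k → 0 < D3 (x (c i)) (x (c j)) (x (c k))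

/-- L3geo -/
def S_L3geo : Prop := S_L3lin → S_L3a

/-- L3c: a `d`-polytope with `d ≤ 2` and a vertex adjacent to all other vertices is a simplex. -/
def S_L3c : Prop := ∀ (V : Type) [Fintype V] (G : SimpleGraph V) (d n : ℕ), d ≤ 2 → 1 ≤ n →
  IsPolytopal d (joinComplete G n) → Fintype.card V + n = d + 1

/-- R3: realisation. -/
def S_R3 : Prop := ∀ (V : Type) [Fintype V] (G : SimpleGraph V), Outer G →
  IsPolytopal 3 (joinComplete G 1)

/-- NC: in a non-crossing Hamiltonian graph every missing chord `i k` is crossed by a chord `j l` which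
is not crossed by an edge (`(x - a)(x - b) < 0` iff `x` is strictly between `a` and `b`). -/
def S_NC : Prop := ∀ (m : ℕ) (A : Fin (m + 3) → Fin (m + 3) → Prop), (∀ i j, A i j → A j i) →
  (∀ i, A i (i + 1)) →
  (∀ i j k l : Fin (m + 3), i < j → j < k → k < l → ¬ (A i k ∧ A j l)) →
  ∀ i k : Fin (m + 3), i < k → ¬ A i k → ∃ j l : Fin (m + 3), i < j ∧ j < k ∧ (l < i ∨ k < l) ∧
    ∀ a b : Fin (m + 3), a < b → A a b →
      0 ≤ ((((j : ℕ) : ℝ) - (a : ℕ)) * (((j : ℕ) : ℝ) - (b : ℕ))) *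
        ((((l : ℕ) : ℝ) - (a : ℕ)) * (((l : ℕ) : ℝ) - (b : ℕ)))

/-- R3geo -/
def S_R3geo : Prop := S_GEN → S_NC → S_R3

/-- CB1: combinatorics of `Outer (G + K_n)`. -/
def S_CB1 : Prop := ∀ (V : Type) [Fintype V] (G : SimpleGraph V) (n : ℕ), 1 ≤ n →
  Outer (joinComplete G n) → Fintype.card V ≤ 2 ∨ IsPathG G

/-- CB2: the converse. -/
def S_CB2 : Prop := ∀ (V : Type) [Fintype V] (G : SimpleGraph V),
  (Fintype.card V ≤ 2 ∨ IsPathG G) → ∃ k, 1 ≤ k ∧ Outer (joinComplete G k)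

/-- ISO: `(G + K_k) + K_1 = G + K_(k+1)`. -/
def S_ISO : Prop := ∀ (V : Type) [Fintype V] (G : SimpleGraph V) (k d : ℕ),
  IsPolytopal d (joinComplete (joinComplete G k) 1) ↔ IsPolytopal d (joinComplete G (k + 1))

/-! ### The configuration of points in the plane -/

/-- zero exactly for collinear points -/
def Col (a b c : ℝ × ℝ) : ℝ := (b.1 - a.1) * (c.2 - a.2) - (b.2 - a.2) * (c.1 - a.1)

/-- labels of the points: `inl i` given points, `inr (inl j)` the points `r_j`, `inr (inr j)` the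
points `s_j` -/
abbrev Lab (M K : ℕ) : Type := Fin M ⊕ (Fin K ⊕ Fin K)

/-- the points on the line number `j` -/
def InE {M K : ℕ} (u v : Fin K → Fin M) (j : Fin K) (a : Lab M K) : Prop :=
  a = Sum.inl (u j) ∨ a = Sum.inl (v j) ∨ a = Sum.inr (Sum.inl j) ∨ a = Sum.inr (Sum.inr j)

/-- `r_j = u + t (v - u)`, `0 < t < 1`, `s_j = u + t' (v - u)`, `1 < t'`, for `u, v` the points number
`u j`, `v j`; the only collinear triples are those on the lines `u v r s`. -/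
structure Cfg {M K : ℕ} (u v : Fin K → Fin M) (pos : Lab M K → ℝ × ℝ) (t t' : Fin K → ℝ) : Prop where
  ht : ∀ j, 0 < t j ∧ t j < 1 ∧ 1 < t' j
  hr : ∀ j, pos (Sum.inr (Sum.inl j)) = pos (Sum.inl (u j)) +
    t j • (pos (Sum.inl (v j)) - pos (Sum.inl (u j)))
  hs : ∀ j, pos (Sum.inr (Sum.inr j)) = pos (Sum.inl (u j)) +
    t' j • (pos (Sum.inl (v j)) - pos (Sum.inl (u j)))
  inj : Function.Injective pos
  col : ∀ a b c, a ≠ b → a ≠ c → b ≠ c → Col (pos a) (pos b) (pos c) = 0 →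
    ∃ j, InE u v j a ∧ InE u v j b ∧ InE u v j c

/-- G2: existence of the configuration. -/
def S_G2 : Prop := ∀ (M K : ℕ) (u v : Fin K → Fin M) (y : Fin M → ℝ × ℝ),
  (∀ j, u j ≠ v j) → Function.Injective (fun j => s(u j, v j)) → Function.Injective y →
  (∀ a b c, a ≠ b → a ≠ c → b ≠ c → Col (y a) (y b) (y c) ≠ 0) →
  ∃ (pos : Lab M K → ℝ × ℝ) (t t' : Fin K → ℝ), (∀ i, pos (Sum.inl i) = y i) ∧ Cfg u v pos t t'

/-- U5: the upper bound. -/
def S_U5 : Prop := ∀ (V : Type) [Fintype V] (G : SimpleGraph V),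
  ∃ n ≥ 1, IsPolytopal 5 (joinComplete G n)

end Pool.Agent.W2helper1.DG
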