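import Pool.Agent.W2helper1.DG.Gen

set_option autoImplicit false

namespace Pool.Agent.W2helper1.DG

open Set Filter Topology
open Pool.Agent.Results.MP_2da123_co.DimSix (IsGraphOf IsPolytopal joinComplete dJoin)

/-! ### Quadratic functions on the plane -/

/-- a quadratic function with given coefficients -/
def qd (c : Fin 6 → ℝ) (z : ℝ × ℝ) : ℝ :=
  c 0 + c 1 * z.1 + c 2 * z.2 + c 3 * z.1 ^ 2 + c 4 * (z.1 * z.2) + c 5 * z.2 ^ 2

def IsQ (f : ℝ × ℝ → ℝ) : Prop := ∃ c : Fin 6 → ℝ, ∀ z, f z = qd c z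

def IsA (f : ℝ × ℝ → ℝ) : Prop := ∃ a b c : ℝ, ∀ z, f z = a + b * z.1 + c * z.2

theorem IsQ.add {f g : ℝ × ℝ → ℝ} (hf : IsQ f) (hg : IsQ g) : IsQ (fun z => f z + g z) := by
  obtain ⟨c, hc⟩ := hf
  obtain ⟨d, hd⟩ := hg
  refine ⟨fun i => c i + d i, fun z => ?_⟩
  simp only [hc, hd, qd]; ring

theorem IsQ.mulc {f : ℝ × ℝ → ℝ} (k : ℝ) (hf : IsQ f) : IsQ (fun z => k * f z) := by
  obtain ⟨c, hc⟩ := hf
  refine ⟨fun i => k * c i, fun z => ?_⟩
  simp only [hc, qd]; ring

theorem IsQ.const (k : ℝ) : IsQ (fun _ => k) := by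
  refine ⟨fun i => if i = 0 then k else 0, fun z => ?_⟩
  simp [qd]

theorem IsA.mul {f g : ℝ × ℝ → ℝ} (hf : IsA f) (hg : IsA g) : IsQ (fun z => f z * g z) := by
  obtain ⟨a, b, c, hc⟩ := hf
  obtain ⟨a', b', c', hd⟩ := hg
  refine ⟨![a * a', a * b' + b * a', a * c' + c * a', b * b', b * c' + c * b', c * c'], fun z => ?_⟩
  simp only [hc, hd, qd, Matrix.cons_val_zero, Matrix.cons_val_one, Matrix.cons_val]
  ring

theorem IsA.subc {f : ℝ × ℝ → ℝ} (hf : IsA f) (k : ℝ) : IsA (fun z => f z - k) := by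
  obtain ⟨a, b, c, hc⟩ := hf
  exact ⟨a - k, b, c, fun z => by simp only [hc]; ring⟩

theorem isA_col (a b : ℝ × ℝ) : IsA (fun z => Col a b z) :=
  ⟨(b.1 - a.1) * (- a.2) + (b.2 - a.2) * a.1, - (b.2 - a.2), b.1 - a.1, fun z => by
    simp only [Col]; ring⟩

/-- the coordinate along the line `u v` -/
noncomputable def tau (u v z : ℝ × ℝ) : ℝ :=
  ((z.1 - u.1) * (v.1 - u.1) + (z.2 - u.2) * (v.2 - u.2)) /
    ((v.1 - u.1) ^ 2 + (v.2 - u.2) ^ 2)

theorem isA_tau (u v : ℝ × ℝ) : IsA (fun z => tau u v z) :=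
  ⟨(- u.1 * (v.1 - u.1) - u.2 * (v.2 - u.2)) / ((v.1 - u.1) ^ 2 + (v.2 - u.2) ^ 2),
    (v.1 - u.1) / ((v.1 - u.1) ^ 2 + (v.2 - u.2) ^ 2),
    (v.2 - u.2) / ((v.1 - u.1) ^ 2 + (v.2 - u.2) ^ 2), fun z => by
    simp only [tau]; ring⟩

theorem tau_line {u v : ℝ × ℝ} (h : u ≠ v) (t : ℝ) : tau u v (u + t • (v - u)) = t := by
  have hne : (v.1 - u.1) ^ 2 + (v.2 - u.2) ^ 2 ≠ 0 := by
    intro h0
    have h1 : v.1 - u.1 = 0 := by nlinarith [sq_nonneg (v.1 - u.1), sq_nonneg (v.2 - u.2)]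
    have h2 : v.2 - u.2 = 0 := by nlinarith [sq_nonneg (v.1 - u.1), sq_nonneg (v.2 - u.2)]
    exact h (Prod.ext (by linarith) (by linarith))
  simp only [tau, Prod.fst_add, Prod.snd_add, Prod.smul_fst, Prod.smul_snd, Prod.fst_sub,
    Prod.snd_sub, smul_eq_mul]
  rw [div_eq_iff hne]; ring

theorem tau_left {u v : ℝ × ℝ} (h : u ≠ v) : tau u v u = 0 := by
  have := tau_line h 0
  simpa using this

theorem tau_right {u v : ℝ × ℝ} (h : u ≠ v) : tau u v v = 1 := by
  have := tau_line h 1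
  simpa using this

theorem col_line (u v : ℝ × ℝ) (t : ℝ) : Col u v (u + t • (v - u)) = 0 := by
  simp only [Col, Prod.fst_add, Prod.snd_add, Prod.smul_fst, Prod.smul_snd, Prod.fst_sub,
    Prod.snd_sub, smul_eq_mul]
  ring

theorem col_left (u v : ℝ × ℝ) : Col u v u = 0 := by simp [Col]
theorem col_right (u v : ℝ × ℝ) : Col u v v = 0 := by simp only [Col]; ring

theorem isQ_dist (a : ℝ × ℝ) : IsQ (fun z => (z.1 - a.1) ^ 2 + (z.2 - a.2) ^ 2) := by
  refine ⟨![a.1 ^ 2 + a.2 ^ 2, -2 * a.1, -2 * a.2, 1, 0, 1], fun z => ?_⟩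
  simp only [qd, Matrix.cons_val_zero, Matrix.cons_val_one, Matrix.cons_val]
  ring

theorem dist_pos {a b : ℝ × ℝ} (h : b ≠ a) : 0 < (b.1 - a.1) ^ 2 + (b.2 - a.2) ^ 2 := by
  rcases lt_or_eq_of_le (by positivity : 0 ≤ (b.1 - a.1) ^ 2 + (b.2 - a.2) ^ 2) with h1 | h1
  · exact h1
  · exfalso
    have h2 : b.1 - a.1 = 0 := by nlinarith [sq_nonneg (b.1 - a.1), sq_nonneg (b.2 - a.2)]
    have h3 : b.2 - a.2 = 0 := by nlinarith [sq_nonneg (b.1 - a.1), sq_nonneg (b.2 - a.2)]
    exact h (Prod.ext (by linarith) (by linarith))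

/-! ### The static functions -/

section static

variable {M K : ℕ} {u v : Fin K → Fin M} {pos : Lab M K → ℝ × ℝ} {t t' : Fin K → ℝ}

/-- the labels on line `j` are the labels whose points are on the line -/
theorem on_line (hc : Cfg u v pos t t') (huv : ∀ j, u j ≠ v j)
    (hinj : Function.Injective (fun j => s(u j, v j))) (j : Fin K) (a : Lab M K)
    (h : Col (pos (Sum.inl (u j))) (pos (Sum.inl (v j))) (pos a) = 0) : InE u v j a := by
  by_cases h1 : a = Sum.inl (u j)
  · exact Or.inl h1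
  by_cases h2 : a = Sum.inl (v j)
  · exact Or.inr (Or.inl h2)
  obtain ⟨j', hu, hv, ha⟩ := hc.col (Sum.inl (u j)) (Sum.inl (v j)) a
    (fun h => huv j (Sum.inl_injective h)) (Ne.symm h1) (Ne.symm h2) h
  have hj : j' = j := by
    apply hinj
    simp only [InE, Sum.inl.injEq, reduceCtorEq, or_false] at hu hv
    have hne := huv j
    rcases hu with hu | hu <;> rcases hv with hv | hv
    · exact absurd (hu.trans hv.symm) hne
    · simp [hu, hv]
    · simp [hu, hv, Sym2.eq_swap]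
    · exact absurd (hu.trans hv.symm) hne
  rw [← hj]; exact ha

/-- a function which is nonnegative at the points of the line and zero only for `P`; adding a large
multiple of the square of the equation of the line -/
theorem large (hc : Cfg u v pos t t') (huv : ∀ j, u j ≠ v j)
    (hinj : Function.Injective (fun j => s(u j, v j))) (j : Fin K) (g : ℝ × ℝ → ℝ) (hg : IsQ g)
    (a b : Lab M K) (ha : InE u v j a) (hb : InE u v j b) (hga : g (pos a) = 0)
    (hgb : g (pos b) = 0) (hpos : ∀ x, InE u v j x → x ≠ a → x ≠ b → 0 < g (pos x)) :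
    ∃ f : ℝ × ℝ → ℝ, IsQ f ∧ f (pos a) = 0 ∧ f (pos b) = 0 ∧
      ∀ x, x ≠ a → x ≠ b → 0 < f (pos x) := by
  classical
  set L : ℝ × ℝ → ℝ := fun z => Col (pos (Sum.inl (u j))) (pos (Sum.inl (v j))) z with hL
  have hzero : ∀ x, InE u v j x → L (pos x) = 0 := by
    intro x hx
    rcases hx with h | h | h | h
    · rw [h]; exact col_left _ _
    · rw [h]; exact col_right _ _
    · rw [h, hL]; simp only [hc.hr j]; exact col_line _ _ _
    · rw [h, hL]; simp only [hc.hs j]; exact col_line _ _ _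
  have hne : ∀ x, ¬ InE u v j x → L (pos x) ≠ 0 := fun x hx h => hx (on_line hc huv hinj j x h)
  have hev : ∀ᶠ A : ℝ in atTop, ∀ x : Lab M K, ¬ InE u v j x → 0 < A * (L (pos x) * L (pos x)) + g (pos x) := by
    rw [Filter.eventually_all]
    intro x
    by_cases hx : InE u v j x
    · exact Eventually.of_forall fun A h => absurd hx h
    · have h1 : 0 < L (pos x) * L (pos x) := mul_self_pos.2 (hne x hx)
      have : Tendsto (fun A : ℝ => A * (L (pos x) * L (pos x)) + g (pos x)) atTop atTop :=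
        tendsto_atTop_add_const_right _ _ (tendsto_id.atTop_mul_const h1)
      filter_upwards [this.eventually_gt_atTop 0] with A hA _ using hA
  obtain ⟨A, hA⟩ := hev.exists
  refine ⟨fun z => A * (L z * L z) + g z, (((isA_col _ _).mul (isA_col _ _)).mulc A).add hg, ?_, ?_, ?_⟩
  · simp only [hzero a ha, hga]; ring
  · simp only [hzero b hb, hgb]; ring
  · intro x hxa hxb
    by_cases hx : InE u v j x
    · have := hpos x hx hxa hxb
      simp only [hzero x hx]
      linarith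
    · exact hA x hx

/-- The static functions: for all pairs of labels but `{u_j, v_j}` and `{r_j, s_j}`. -/
theorem static (hc : Cfg u v pos t t') (huv : ∀ j, u j ≠ v j)
    (hinj : Function.Injective (fun j => s(u j, v j))) (a b : Lab M K) (hab : a ≠ b)
    (h1 : ∀ j, ¬ (a = Sum.inl (u j) ∧ b = Sum.inl (v j)))
    (h2 : ∀ j, ¬ (b = Sum.inl (u j) ∧ a = Sum.inl (v j)))
    (h3 : ∀ j, ¬ (a = Sum.inr (Sum.inl j) ∧ b = Sum.inr (Sum.inr j)))
    (h4 : ∀ j, ¬ (b = Sum.inr (Sum.inl j) ∧ a = Sum.inr (Sum.inr j))) :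
    ∃ f : ℝ × ℝ → ℝ, IsQ f ∧ f (pos a) = 0 ∧ f (pos b) = 0 ∧
      ∀ x, x ≠ a → x ≠ b → 0 < f (pos x) := by
  classical
  by_cases hE : ∃ j, InE u v j a ∧ InE u v j b
  · obtain ⟨j, ha, hb⟩ := hE
    have hne : pos (Sum.inl (u j)) ≠ pos (Sum.inl (v j)) :=
      fun h => huv j (Sum.inl_injective (hc.inj h))
    set T : ℝ × ℝ → ℝ := fun z => tau (pos (Sum.inl (u j))) (pos (Sum.inl (v j))) z with hT
    have Tu : T (pos (Sum.inl (u j))) = 0 := tau_left hne
    have Tv : T (pos (Sum.inl (v j))) = 1 := tau_right hne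
    have Tr : T (pos (Sum.inr (Sum.inl j))) = t j := by
      simp only [hT, hc.hr j]; exact tau_line hne _
    have Ts : T (pos (Sum.inr (Sum.inr j))) = t' j := by
      simp only [hT, hc.hs j]; exact tau_line hne _
    obtain ⟨ht0, ht1, ht2⟩ := hc.ht j
    have hA : IsA T := isA_tau _ _
    -- the general argument
    have key : ∀ (σ p q : ℝ), T (pos a) = p → T (pos b) = q →
        (∀ x, InE u v j x → x ≠ a → x ≠ b → 0 < σ * ((T (pos x) - p) * (T (pos x) - q))) →
        ∃ f : ℝ × ℝ → ℝ, IsQ f ∧ f (pos a) = 0 ∧ f (pos b) = 0 ∧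
          ∀ x, x ≠ a → x ≠ b → 0 < f (pos x) := by
      intro σ p q hp hq h
      refine large hc huv hinj j (fun z => σ * ((T z - p) * (T z - q)))
        (((hA.subc p).mul (hA.subc q)).mulc σ) a b ha hb ?_ ?_ h
      · simp [hp]
      · simp [hq]
    have hx4 : ∀ x, InE u v j x → x = Sum.inl (u j) ∨ x = Sum.inl (v j) ∨
        x = Sum.inr (Sum.inl j) ∨ x = Sum.inr (Sum.inr j) := fun x hx => hx
    rcases ha with ha | ha | ha | ha <;> rcases hb with hb | hb | hb | hb
    · exact absurd (ha.trans hb.symm) hab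
    · exact absurd ⟨ha, hb⟩ (h1 j)
    · -- u r
      refine key 1 0 (t j) (by rw [ha, Tu]) (by rw [hb, Tr]) fun x hx hxa hxb => ?_
      rcases hx with hx | hx | hx | hx
      · exact absurd (hx.trans ha.symm) hxa
      · rw [hx, Tv]; nlinarith
      · exact absurd (hx.trans hb.symm) hxb
      · rw [hx, Ts]; nlinarith [mul_pos (show 0 < t' j by linarith) (show 0 < t' j - t j by linarith)]
    · -- u s
      refine key (-1) 0 (t' j) (by rw [ha, Tu]) (by rw [hb, Ts]) fun x hx hxa hxb => ?_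
      rcases hx with hx | hx | hx | hx
      · exact absurd (hx.trans ha.symm) hxa
      · rw [hx, Tv]; nlinarith
      · rw [hx, Tr]; nlinarith [mul_pos ht0 (show 0 < t' j - t j by linarith)]
      · exact absurd (hx.trans hb.symm) hxb
    · exact absurd ⟨hb, ha⟩ (h2 j)
    · exact absurd (ha.trans hb.symm) hab
    · -- v r
      refine key 1 1 (t j) (by rw [ha, Tv]) (by rw [hb, Tr]) fun x hx hxa hxb => ?_
      rcases hx with hx | hx | hx | hx
      · rw [hx, Tu]; nlinarith
      · exact absurd (hx.trans ha.symm) hxa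
      · exact absurd (hx.trans hb.symm) hxb
      · rw [hx, Ts]; nlinarith [mul_pos (show 0 < t' j - 1 by linarith) (show 0 < t' j - t j by linarith)]
    · -- v s
      refine key 1 1 (t' j) (by rw [ha, Tv]) (by rw [hb, Ts]) fun x hx hxa hxb => ?_
      rcases hx with hx | hx | hx | hx
      · rw [hx, Tu]; nlinarith
      · exact absurd (hx.trans ha.symm) hxa
      · rw [hx, Tr]; nlinarith [mul_pos (show 0 < 1 - t j by linarith) (show 0 < t' j - t j by linarith)]
      · exact absurd (hx.trans hb.symm) hxb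
    · -- r u
      refine key 1 (t j) 0 (by rw [ha, Tr]) (by rw [hb, Tu]) fun x hx hxa hxb => ?_
      rcases hx with hx | hx | hx | hx
      · exact absurd (hx.trans hb.symm) hxb
      · rw [hx, Tv]; nlinarith
      · exact absurd (hx.trans ha.symm) hxa
      · rw [hx, Ts]; nlinarith [mul_pos (show 0 < t' j by linarith) (show 0 < t' j - t j by linarith)]
    · -- r v
      refine key 1 (t j) 1 (by rw [ha, Tr]) (by rw [hb, Tv]) fun x hx hxa hxb => ?_
      rcases hx with hx | hx | hx | hx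
      · rw [hx, Tu]; nlinarith
      · exact absurd (hx.trans hb.symm) hxb
      · exact absurd (hx.trans ha.symm) hxa
      · rw [hx, Ts]; nlinarith [mul_pos (show 0 < t' j - 1 by linarith) (show 0 < t' j - t j by linarith)]
    · exact absurd (ha.trans hb.symm) hab
    · exact absurd ⟨ha, hb⟩ (h3 j)
    · -- s u
      refine key (-1) (t' j) 0 (by rw [ha, Ts]) (by rw [hb, Tu]) fun x hx hxa hxb => ?_
      rcases hx with hx | hx | hx | hx
      · exact absurd (hx.trans hb.symm) hxb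
      · rw [hx, Tv]; nlinarith
      · rw [hx, Tr]; nlinarith [mul_pos ht0 (show 0 < t' j - t j by linarith)]
      · exact absurd (hx.trans ha.symm) hxa
    · -- s v
      refine key 1 (t' j) 1 (by rw [ha, Ts]) (by rw [hb, Tv]) fun x hx hxa hxb => ?_
      rcases hx with hx | hx | hx | hx
      · rw [hx, Tu]; nlinarith
      · exact absurd (hx.trans hb.symm) hxb
      · rw [hx, Tr]; nlinarith [mul_pos (show 0 < 1 - t j by linarith) (show 0 < t' j - t j by linarith)]
      · exact absurd (hx.trans ha.symm) hxa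
    · exact absurd ⟨hb, ha⟩ (h4 j)
    · exact absurd (ha.trans hb.symm) hab
  · refine ⟨fun z => Col (pos a) (pos b) z * Col (pos a) (pos b) z,
      (isA_col _ _).mul (isA_col _ _), by simp [col_left], by simp [col_right], fun x hxa hxb => ?_⟩
    apply mul_self_pos.2
    intro h0
    obtain ⟨j, ha, hb, -⟩ := hc.col a b x hab (Ne.symm hxa) (Ne.symm hxb) h0
    exact hE ⟨j, ha, hb⟩

end static

end Pool.Agent.W2helper1.DG
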