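import Pool.Agent.W2helper1.DG.U5a

set_option autoImplicit false

namespace Pool.Agent.W2helper1.DG

open Set Filter Topology
open Pool.Agent.Results.MP_2da123_co.DimSix (IsGraphOf IsPolytopal joinComplete dJoin)

/-- the Veronese surface -/
noncomputable def ver (z : ℝ × ℝ) : EuclideanSpace ℝ (Fin 5) :=
  !₂[z.1, z.2, z.1 ^ 2, z.1 * z.2, z.2 ^ 2]

noncomputable def lf (c : Fin 6 → ℝ) : EuclideanSpace ℝ (Fin 5) →L[ℝ] ℝ :=
  ∑ k : Fin 5, c k.succ • EuclideanSpace.proj k

theorem lf_apply (c : Fin 6 → ℝ) (x : EuclideanSpace ℝ (Fin 5)) :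
    lf c x = c 1 * x 0 + c 2 * x 1 + c 3 * x 2 + c 4 * x 3 + c 5 * x 4 := by
  simp [lf, Fin.sum_univ_five]

theorem lf_ver (c : Fin 6 → ℝ) (z : ℝ × ℝ) : lf c (ver z) + c 0 = qd c z := by
  rw [lf_apply]
  simp [ver, qd]
  ring

/-- every functional is of this form -/
theorem lf_surj (l : EuclideanSpace ℝ (Fin 5) →L[ℝ] ℝ) (b : ℝ) :
    ∃ c : Fin 6 → ℝ, c 0 = b ∧ l = lf c := by
  refine ⟨![b, l (EuclideanSpace.single 0 1), l (EuclideanSpace.single 1 1),
    l (EuclideanSpace.single 2 1), l (EuclideanSpace.single 3 1), l (EuclideanSpace.single 4 1)], rfl, ?_⟩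
  ext x
  have hdec : x = ∑ k : Fin 5, (x k) • EuclideanSpace.single k (1 : ℝ) := by
    ext j
    simp [Finset.sum_apply, Pi.single_apply]
  rw [lf_apply]
  conv_lhs => rw [hdec, map_sum]
  simp only [Fin.sum_univ_five, map_smul, smul_eq_mul]
  simp
  ring

section poly

variable {M K : ℕ}

/-- the planar labels -/
def IsPl (a : Lab M K) : Prop := ∀ j, a ≠ Sum.inr (Sum.inl j)

/-- the sum over the planar labels -/
noncomputable def plsum {E : Type} [AddCommMonoid E] (F : Lab M K → E) : E :=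
  ∑ i : Fin M, F (Sum.inl i) + ∑ j : Fin K, F (Sum.inr (Sum.inr j))

/-- the vertices of the polytope -/
noncomputable def vtx (pos : Lab M K → ℝ × ℝ) (ε : ℝ) : Lab M K → EuclideanSpace ℝ (Fin 5)
  | Sum.inl i => ver (pos (Sum.inl i))
  | Sum.inr (Sum.inr j) => ver (pos (Sum.inr (Sum.inr j)))
  | Sum.inr (Sum.inl j) => (1 + ε) • ver (pos (Sum.inr (Sum.inl j))) -
      ε • ((1 / ((M : ℝ) + K)) • plsum (fun a => ver (pos a)))

/-- the values of a function at the vertices -/
noncomputable def val (pos : Lab M K → ℝ × ℝ) (ε : ℝ) (f : ℝ × ℝ → ℝ) : Lab M K → ℝ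
  | Sum.inl i => f (pos (Sum.inl i))
  | Sum.inr (Sum.inr j) => f (pos (Sum.inr (Sum.inr j)))
  | Sum.inr (Sum.inl j) => (1 + ε) * f (pos (Sum.inr (Sum.inl j))) -
      ε * ((1 / ((M : ℝ) + K)) * plsum (fun a => f (pos a)))

theorem lf_vtx (hM : 0 < M) (pos : Lab M K → ℝ × ℝ) (ε : ℝ) (f : ℝ × ℝ → ℝ) (c : Fin 6 → ℝ)
    (hf : ∀ z, f z = qd c z) (a : Lab M K) : lf c (vtx pos ε a) + c 0 = val pos ε f a := by
  have hMK : (M : ℝ) + K ≠ 0 := by positivity
  rcases a with i | j | j
  · simp only [vtx, val]; rw [lf_ver, hf]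
  · simp only [vtx, val, map_sub, map_smul, smul_eq_mul, plsum, map_add, map_sum]
    have h : ∀ z, lf c (ver z) = f z - c 0 := fun z => by rw [hf, ← lf_ver]; ring
    simp only [h, Finset.sum_sub_distrib, Finset.sum_const, Finset.card_univ, Fintype.card_fin,
      nsmul_eq_mul]
    field_simp
    ring
  · simp only [vtx, val]; rw [lf_ver, hf]

/-- the graph: complete but for the pairs `{u_j, v_j}` -/
def H0 (u v : Fin K → Fin M) : SimpleGraph (Lab M K) where
  Adj a b := a ≠ b ∧ (∀ j, ¬ (a = Sum.inl (u j) ∧ b = Sum.inl (v j))) ∧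
    ∀ j, ¬ (b = Sum.inl (u j) ∧ a = Sum.inl (v j))
  symm := ⟨fun _ _ h => ⟨h.1.symm, h.2.2, h.2.1⟩⟩
  loopless := ⟨fun _ h => h.1 rfl⟩

variable {u v : Fin K → Fin M} {pos : Lab M K → ℝ × ℝ} {t t' : Fin K → ℝ}

theorem avg_nonneg (f : ℝ × ℝ → ℝ) (h : ∀ x : Lab M K, 0 ≤ f (pos x)) :
    0 ≤ (1 / ((M : ℝ) + K)) * plsum (fun a : Lab M K => f (pos a)) :=
  mul_nonneg (by positivity) (add_nonneg (Finset.sum_nonneg fun i _ => h _)
    (Finset.sum_nonneg fun i _ => h _))

theorem val_static (f : ℝ × ℝ → ℝ) (a b : Lab M K) (ha : f (pos a) = 0) (hb : f (pos b) = 0)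
    (hpos : ∀ x, x ≠ a → x ≠ b → 0 < f (pos x)) :
    ∀ᶠ ε in 𝓝[>] (0 : ℝ), val pos ε f a ≤ 0 ∧ val pos ε f b ≤ 0 ∧
      ∀ x, x ≠ a → x ≠ b → 0 < val pos ε f x := by
  have hnn : ∀ x : Lab M K, 0 ≤ f (pos x) := by
    intro x
    by_cases h1 : x = a
    · rw [h1, ha]
    by_cases h2 : x = b
    · rw [h2, hb]
    exact (hpos x h1 h2).le
  set m := (1 / ((M : ℝ) + K)) * plsum (fun a : Lab M K => f (pos a)) with hm
  have hm0 : 0 ≤ m := avg_nonneg f hnn
  have hle : ∀ y : Lab M K, f (pos y) = 0 → ∀ ε : ℝ, 0 < ε → val pos ε f y ≤ 0 := by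
    intro y hy ε hε
    rcases y with i | j | j
    · exact hy.le
    · show (1 + ε) * f (pos (Sum.inr (Sum.inl j))) - ε * m ≤ 0
      rw [hy]; nlinarith
    · exact hy.le
  have h3 : ∀ᶠ ε in 𝓝[>] (0 : ℝ), ∀ x, x ≠ a → x ≠ b → 0 < val pos ε f x := by
    rw [Filter.eventually_all]
    intro x
    by_cases hx : x = a ∨ x = b
    · refine Eventually.of_forall fun ε h1 h2 => ?_
      rcases hx with h | h
      · exact absurd h h1
      · exact absurd h h2
    push Not at hx
    have hp := hpos x hx.1 hx.2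
    rcases x with i | j | j
    · exact Eventually.of_forall fun ε _ _ => hp
    · have hcont : Continuous (fun ε : ℝ => (1 + ε) * f (pos (Sum.inr (Sum.inl j))) - ε * m) := by
        fun_prop
      have : ∀ᶠ ε in 𝓝 (0 : ℝ), 0 < (1 + ε) * f (pos (Sum.inr (Sum.inl j))) - ε * m :=
        hcont.continuousAt.eventually_const_lt (by simpa using hp)
      filter_upwards [nhdsWithin_le_nhds this] with ε hε _ _ using hε
    · exact Eventually.of_forall fun ε _ _ => hp
  filter_upwards [h3, self_mem_nhdsWithin] with ε h hε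
  exact ⟨hle a ha ε hε, hle b hb ε hε, h⟩

/-- the pair `s_j`, `w_j` -/
theorem val_sw (hc : Cfg u v pos t t') (huv : ∀ j, u j ≠ v j)
    (hinj : Function.Injective (fun j => s(u j, v j))) (hM : 2 < M) (j : Fin K) :
    ∀ᶠ ε in 𝓝[>] (0 : ℝ), ∃ f, IsQ f ∧ val pos ε f (Sum.inr (Sum.inl j)) ≤ 0 ∧
      val pos ε f (Sum.inr (Sum.inr j)) ≤ 0 ∧
      ∀ x, x ≠ Sum.inr (Sum.inl j) → x ≠ Sum.inr (Sum.inr j) → 0 < val pos ε f x := by
  classical
  have hne : pos (Sum.inl (u j)) ≠ pos (Sum.inl (v j)) :=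
    fun h => huv j (Sum.inl_injective (hc.inj h))
  set T : ℝ × ℝ → ℝ := fun z => tau (pos (Sum.inl (u j))) (pos (Sum.inl (v j))) z with hT
  set L : ℝ × ℝ → ℝ := fun z => Col (pos (Sum.inl (u j))) (pos (Sum.inl (v j))) z with hL
  have Tu : T (pos (Sum.inl (u j))) = 0 := tau_left hne
  have Tv : T (pos (Sum.inl (v j))) = 1 := tau_right hne
  have Tr : T (pos (Sum.inr (Sum.inl j))) = t j := by
    simp only [hT, hc.hr j]; exact tau_line hne _
  have Ts : T (pos (Sum.inr (Sum.inr j))) = t' j := by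
    simp only [hT, hc.hs j]; exact tau_line hne _
  have Lu : L (pos (Sum.inl (u j))) = 0 := col_left _ _
  have Lv : L (pos (Sum.inl (v j))) = 0 := col_right _ _
  have Lr : L (pos (Sum.inr (Sum.inl j))) = 0 := by
    simp only [hL, hc.hr j]; exact col_line _ _ _
  have Ls : L (pos (Sum.inr (Sum.inr j))) = 0 := by
    simp only [hL, hc.hs j]; exact col_line _ _ _
  obtain ⟨ht0, ht1, ht2⟩ := hc.ht j
  have hoff : ∀ x, ¬ InE u v j x → 0 < L (pos x) * L (pos x) := fun x hx =>
    mul_self_pos.2 fun h => hx (on_line hc huv hinj j x h)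
  set f1 : ℝ × ℝ → ℝ := fun z => L z * L z with hf1
  set f2 : ℝ × ℝ → ℝ := fun z => (T z - t' j) * (T z - t' j) with hf2
  have hf1q : IsQ f1 := (isA_col _ _).mul (isA_col _ _)
  have hf2q : IsQ f2 := ((isA_tau _ _).subc _).mul ((isA_tau _ _).subc _)
  set m1 := (1 / ((M : ℝ) + K)) * plsum (fun a : Lab M K => f1 (pos a)) with hm1
  set m2 := (1 / ((M : ℝ) + K)) * plsum (fun a : Lab M K => f2 (pos a)) with hm2
  have hm2n : 0 ≤ m2 := avg_nonneg f2 fun x => mul_self_nonneg _
  have hm1p : 0 < m1 := by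
    -- some base point is off the line
    obtain ⟨i, hi1, hi2⟩ : ∃ i : Fin M, i ≠ u j ∧ i ≠ v j := by
      by_contra hcon
      push Not at hcon
      have : (Finset.univ : Finset (Fin M)) ⊆ {u j, v j} := by
        intro i _
        by_cases h : i = u j
        · simp [h]
        · simp [hcon i h]
      have := Finset.card_le_card this
      have h2 := Finset.card_le_two (a := u j) (b := v j)
      simp only [Finset.card_univ, Fintype.card_fin] at this
      omega
    have hnot : ¬ InE u v j (Sum.inl i) := by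
      rintro (h | h | h | h)
      · exact hi1 (Sum.inl_injective h)
      · exact hi2 (Sum.inl_injective h)
      · cases h
      · cases h
    have h0 := hoff _ hnot
    have hsum : f1 (pos (Sum.inl i)) ≤ ∑ i : Fin M, f1 (pos (Sum.inl i)) :=
      Finset.single_le_sum (f := fun i : Fin M => f1 (pos (Sum.inl i)))
        (fun i _ => mul_self_nonneg _) (Finset.mem_univ i)
    have hsum2 : 0 ≤ ∑ j : Fin K, f1 (pos (Sum.inr (Sum.inr j))) :=
      Finset.sum_nonneg fun i _ => mul_self_nonneg _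
    refine mul_pos (by positivity) ?_
    show 0 < ∑ i : Fin M, f1 (pos (Sum.inl i)) + ∑ j : Fin K, f1 (pos (Sum.inr (Sum.inr j)))
    have : 0 < f1 (pos (Sum.inl i)) := h0
    linarith
  -- the constant
  set κ : ℝ := m1 / (2 * (t' j - t j) ^ 2) with hκ
  have hden : 0 < (t' j - t j) ^ 2 := by
    have : 0 < t' j - t j := by linarith
    positivity
  have hκp : 0 < κ := by positivity
  have hκe : κ * (t' j - t j) ^ 2 = m1 / 2 := by
    rw [hκ, div_mul_eq_mul_div, div_eq_div_iff (by positivity) (by norm_num)]; ring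
  have hev : ∀ᶠ ε in 𝓝[>] (0 : ℝ), ∀ k : Fin K, k ≠ j →
      0 < (1 + ε) * f1 (pos (Sum.inr (Sum.inl k))) - ε * (m1 + ε * κ * m2) := by
    rw [Filter.eventually_all]
    intro k
    by_cases hk : k = j
    · exact Eventually.of_forall fun ε h => absurd hk h
    have hnot : ¬ InE u v j (Sum.inr (Sum.inl k) : Lab M K) := by
      rintro (h | h | h | h)
      · cases h
      · cases h
      · exact hk (Sum.inl_injective (Sum.inr_injective h))
      · cases (Sum.inr_injective h)
    have h0 := hoff _ hnot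
    have hcont : Continuous (fun ε : ℝ => (1 + ε) * f1 (pos (Sum.inr (Sum.inl k) : Lab M K)) -
        ε * (m1 + ε * κ * m2)) := by fun_prop
    have : ∀ᶠ ε in 𝓝 (0 : ℝ), 0 < (1 + ε) * f1 (pos (Sum.inr (Sum.inl k) : Lab M K)) -
        ε * (m1 + ε * κ * m2) :=
      hcont.continuousAt.eventually_const_lt (by
        have h00 : 0 < f1 (pos (Sum.inr (Sum.inl k) : Lab M K)) := h0
        simp only [add_zero, one_mul, zero_mul, sub_zero]; exact h00)
    filter_upwards [nhdsWithin_le_nhds this] with ε hε _ using hε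
  have hlt1 : ∀ᶠ ε in 𝓝[>] (0 : ℝ), ε < 1 :=
    nhdsWithin_le_nhds (Iio_mem_nhds one_pos)
  filter_upwards [hev, hlt1, self_mem_nhdsWithin] with ε hε hε1 hε0
  have hε0' : (0 : ℝ) < ε := hε0
  have havg : (1 / ((M : ℝ) + K)) * plsum (fun a : Lab M K => f1 (pos a) + (ε * κ) * f2 (pos a)) =
      m1 + ε * κ * m2 := by
    rw [hm1, hm2]
    simp only [plsum, Finset.sum_add_distrib, ← Finset.mul_sum]
    ring
  refine ⟨fun z => f1 z + (ε * κ) * f2 z, hf1q.add (hf2q.mulc _), ?_, ?_, ?_⟩
  · show (1 + ε) * (f1 (pos (Sum.inr (Sum.inl j))) + (ε * κ) * f2 (pos (Sum.inr (Sum.inl j)))) -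
      ε * ((1 / ((M : ℝ) + K)) * plsum (fun a : Lab M K => f1 (pos a) + (ε * κ) * f2 (pos a))) ≤ 0
    rw [havg]
    simp only [hf1, hf2, Lr, Tr]
    have e1 : κ * ((t j - t' j) * (t j - t' j)) = m1 / 2 := by rw [← hκe]; ring
    have e2 : (1 + ε) * (0 * 0 + ε * κ * ((t j - t' j) * (t j - t' j))) = (1 + ε) * ε * (m1 / 2) := by
      rw [← e1]; ring
    rw [e2]
    have h5 : 0 ≤ ε * (ε * κ * m2) := by positivity
    nlinarith [mul_pos hε0' hm1p]
  · show f1 (pos (Sum.inr (Sum.inr j))) + (ε * κ) * f2 (pos (Sum.inr (Sum.inr j))) ≤ 0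
    simp only [hf1, hf2, Ls, Ts]
    simp
  · intro x hx1 hx2
    have hpl : ∀ y : Lab M K, y ≠ Sum.inr (Sum.inr j) → y ≠ Sum.inr (Sum.inl j) →
        0 < f1 (pos y) + (ε * κ) * f2 (pos y) := by
      intro y hy1 hy2
      by_cases hy : InE u v j y
      · rcases hy with h | h | h | h
        · rw [h]; simp only [hf1, hf2, Lu, Tu]
          have : 0 < ε * κ * ((0 - t' j) * (0 - t' j)) := by
            have : 0 < (0 - t' j) * (0 - t' j) := by nlinarith
            positivity
          linarith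
        · rw [h]; simp only [hf1, hf2, Lv, Tv]
          have : 0 < ε * κ * ((1 - t' j) * (1 - t' j)) := by
            have : 0 < (1 - t' j) * (1 - t' j) := by nlinarith
            positivity
          linarith
        · exact absurd h hy2
        · exact absurd h hy1
      · have h1 := hoff y hy
        have h2 : 0 ≤ ε * κ * f2 (pos y) := mul_nonneg (by positivity) (mul_self_nonneg _)
        have : 0 < f1 (pos y) := h1
        linarith
    rcases x with i | k | k
    · exact hpl _ (by simp) (by simp)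
    · show 0 < (1 + ε) * (f1 (pos (Sum.inr (Sum.inl k))) + (ε * κ) * f2 (pos (Sum.inr (Sum.inl k)))) -
        ε * ((1 / ((M : ℝ) + K)) * plsum (fun a : Lab M K => f1 (pos a) + (ε * κ) * f2 (pos a)))
      rw [havg]
      have hk : k ≠ j := fun h => hx1 (by rw [h])
      have h1 := hε k hk
      have h2 : 0 ≤ (1 + ε) * (ε * κ * f2 (pos (Sum.inr (Sum.inl k) : Lab M K))) :=
        mul_nonneg (by linarith) (mul_nonneg (by positivity) (mul_self_nonneg _))
      linarith
    · exact hpl _ hx2 (by simp)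

/-- the vertex functionals -/
theorem val_vert (hc : Cfg u v pos t t') (a : Lab M K) :
    ∀ᶠ ε in 𝓝[>] (0 : ℝ), ∃ f, IsQ f ∧ val pos ε f a = 0 ∧ ∀ x, x ≠ a → 0 < val pos ε f x := by
  classical
  set f : ℝ × ℝ → ℝ := fun z => (z.1 - (pos a).1) ^ 2 + (z.2 - (pos a).2) ^ 2 with hf
  have hfq : IsQ f := isQ_dist _
  have hfa : f (pos a) = 0 := by simp [hf]
  have hfp : ∀ x, x ≠ a → 0 < f (pos x) := fun x hx => dist_pos fun h => hx (hc.inj h)
  have hnn : ∀ x : Lab M K, 0 ≤ f (pos x) := fun x => by simp only [hf]; positivity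
  set m := (1 / ((M : ℝ) + K)) * plsum (fun a : Lab M K => f (pos a)) with hm
  have hm0 : 0 ≤ m := avg_nonneg f hnn
  by_cases hpl : ∃ j, a = Sum.inr (Sum.inl j)
  · -- the points w_j
    obtain ⟨j, hj⟩ := hpl
    filter_upwards [self_mem_nhdsWithin] with ε hε
    have hε' : (0 : ℝ) < ε := hε
    have hMK : (0 : ℝ) < (M : ℝ) + K := by
      have : 0 < K := lt_of_le_of_lt (Nat.zero_le _) j.isLt
      positivity
    have havg : (1 / ((M : ℝ) + K)) * plsum (fun a : Lab M K => f (pos a) + ε * m) = m + ε * m := by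
      have : plsum (fun a : Lab M K => f (pos a) + ε * m) =
          plsum (fun a : Lab M K => f (pos a)) + ((M : ℝ) + K) * (ε * m) := by
        simp only [plsum, Finset.sum_add_distrib, Finset.sum_const, Finset.card_univ,
          Fintype.card_fin, nsmul_eq_mul]
        ring
      rw [this, mul_add, ← hm]
      field_simp
    refine ⟨fun z => f z + ε * m, hfq.add (IsQ.const _), ?_, ?_⟩
    · rw [hj]
      show (1 + ε) * (f (pos (Sum.inr (Sum.inl j))) + ε * m) -
        ε * ((1 / ((M : ℝ) + K)) * plsum (fun a : Lab M K => f (pos a) + ε * m)) = 0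
      rw [havg, ← hj, hfa]; ring
    · intro x hx
      have h1 := hfp x hx
      rcases x with i | k | k
      · show 0 < f (pos (Sum.inl i)) + ε * m
        have : 0 ≤ ε * m := by positivity
        linarith
      · show 0 < (1 + ε) * (f (pos (Sum.inr (Sum.inl k))) + ε * m) -
          ε * ((1 / ((M : ℝ) + K)) * plsum (fun a : Lab M K => f (pos a) + ε * m))
        rw [havg]
        have : (1 + ε) * (f (pos (Sum.inr (Sum.inl k))) + ε * m) - ε * (m + ε * m) =
          (1 + ε) * f (pos (Sum.inr (Sum.inl k))) := by ring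
        rw [this]
        positivity
      · show 0 < f (pos (Sum.inr (Sum.inr k))) + ε * m
        have : 0 ≤ ε * m := by positivity
        linarith
  · push Not at hpl
    have h3 : ∀ᶠ ε in 𝓝[>] (0 : ℝ), ∀ x, x ≠ a → 0 < val pos ε f x := by
      rw [Filter.eventually_all]
      intro x
      by_cases hx : x = a
      · exact Eventually.of_forall fun ε h1 => absurd hx h1
      have hp := hfp x hx
      rcases x with i | j | j
      · exact Eventually.of_forall fun ε _ => hp
      · have hcont : Continuous (fun ε : ℝ => (1 + ε) * f (pos (Sum.inr (Sum.inl j))) - ε * m) := by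
          fun_prop
        have : ∀ᶠ ε in 𝓝 (0 : ℝ), 0 < (1 + ε) * f (pos (Sum.inr (Sum.inl j))) - ε * m :=
          hcont.continuousAt.eventually_const_lt (by simpa using hp)
        filter_upwards [nhdsWithin_le_nhds this] with ε hε _ using hε
      · exact Eventually.of_forall fun ε _ => hp
    filter_upwards [h3] with ε h
    refine ⟨f, hfq, ?_, h⟩
    rcases a with i | j | j
    · exact hfa
    · exact absurd rfl (hpl j)
    · exact hfa

/-- two Veronese identities -/
theorem ver_line (p q : ℝ × ℝ) (a b : ℝ) :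
    (b * (b - 1)) • ver (p + a • (q - p)) + (a * (1 - a)) • ver (p + b • (q - p)) =
      ((1 - a) * (b - 1) * (b - a)) • ver p + (a * b * (b - a)) • ver q := by
  ext k
  fin_cases k <;>
  · simp [ver]
    ring

end poly

end Pool.Agent.W2helper1.DG
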