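import Pool.Agent.W2helper1.DG.U5b

set_option autoImplicit false

namespace Pool.Agent.W2helper1.DG

open Set Filter Topology
open Pool.Agent.Results.MP_2da123_co.DimSix (IsGraphOf IsPolytopal joinComplete dJoin)

theorem polytopal_iso {U W : Type} {H : SimpleGraph U} {H' : SimpleGraph W} (φ : H ≃g H') (d : ℕ)
    (h : IsPolytopal d H') : IsPolytopal d H := by
  obtain ⟨P, p, hfin, hint, hinj, hext, hadj⟩ := h
  refine ⟨P, p ∘ φ, hfin, hint, hinj.comp φ.injective, ?_, fun a b => ?_⟩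
  · rw [range_comp, φ.surjective.range_eq, image_univ, hext]
  · rw [← φ.map_adj_iff, hadj]
    simp only [Function.comp_apply, ne_eq, EmbeddingLike.apply_eq_iff_eq]

section core

variable {M K : ℕ} {u v : Fin K → Fin M} {pos : Lab M K → ℝ × ℝ} {t t' : Fin K → ℝ}

theorem coef_zero (c : Fin 6 → ℝ) (h : ∀ i : Fin 7, qd c ((i : ℕ) + 1, ((i : ℕ) + 1 : ℝ) ^ 3) = 0) :
    lf c = 0 := by
  have h0 := h 0
  have h1 := h 1
  have h2 := h 2
  have h3 := h 3
  have h4 := h 4
  have h5 := h 5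
  have h6 := h 6
  simp only [qd] at h0 h1 h2 h3 h4 h5 h6
  norm_num at h0 h1 h2 h3 h4 h5 h6
  have e1 : c 1 = 0 := by linarith
  have e2 : c 2 = 0 := by linarith
  have e3 : c 3 = 0 := by linarith
  have e4 : c 4 = 0 := by linarith
  have e5 : c 5 = 0 := by linarith
  ext x
  rw [lf_apply, e1, e2, e3, e4, e5]
  simp

theorem good_pairs (hc : Cfg u v pos t t') (huv : ∀ j, u j ≠ v j)
    (hinj : Function.Injective (fun j => s(u j, v j))) (hM : 2 < M) :
    ∀ᶠ ε in 𝓝[>] (0 : ℝ), ∀ a b : Lab M K, (H0 u v).Adj a b → ∃ f, IsQ f ∧ val pos ε f a ≤ 0 ∧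
      val pos ε f b ≤ 0 ∧ ∀ x, x ≠ a → x ≠ b → 0 < val pos ε f x := by
  rw [Filter.eventually_all]
  intro a
  rw [Filter.eventually_all]
  intro b
  by_cases hadj : (H0 u v).Adj a b
  swap
  · exact Eventually.of_forall fun ε h => absurd h hadj
  by_cases h3 : ∃ j, a = Sum.inr (Sum.inl j) ∧ b = Sum.inr (Sum.inr j)
  · obtain ⟨j, ha, hb⟩ := h3
    filter_upwards [val_sw hc huv hinj hM j] with ε hε _
    rw [ha, hb]
    exact hε
  by_cases h4 : ∃ j, b = Sum.inr (Sum.inl j) ∧ a = Sum.inr (Sum.inr j)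
  · obtain ⟨j, hb, ha⟩ := h4
    filter_upwards [val_sw hc huv hinj hM j] with ε hε _
    rw [ha, hb]
    obtain ⟨f, h1, h2, h3, h4⟩ := hε
    exact ⟨f, h1, h3, h2, fun x hx hx' => h4 x hx' hx⟩
  push Not at h3 h4
  obtain ⟨f, hf, hfa, hfb, hpos⟩ := static hc huv hinj a b hadj.1 hadj.2.1 hadj.2.2
    (fun j h => h3 j h.1 h.2) (fun j h => h4 j h.1 h.2)
  filter_upwards [val_static (pos := pos) f a b hfa hfb hpos] with ε hε _
  exact ⟨f, hf, hε.1, hε.2.1, hε.2.2⟩

theorem kill (hM : 0 < M) (hc : Cfg u v pos t t') (ε : ℝ) (hε : 0 < ε) (j : Fin K) :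
    ∃ (a b : ℝ) (c : Lab M K → ℝ), (∀ x, 0 ≤ c x) ∧ 0 < c (Sum.inr (Sum.inl j)) ∧
      ∑ x, c x = a + b ∧
      a • vtx pos ε (Sum.inl (u j)) + b • vtx pos ε (Sum.inl (v j)) = ∑ x, c x • vtx pos ε x := by
  classical
  obtain ⟨ht0, ht1, ht2⟩ := hc.ht j
  set τ := t j
  set τ' := t' j
  have hMK : (0 : ℝ) < (M : ℝ) + K := by positivity
  set θ : ℝ := τ' * (τ' - 1) / (1 + ε) with hθ
  have hθp : 0 < θ := by
    have : 0 < τ' - 1 := by linarith
    have : 0 < τ' := by linarith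
    positivity
  have hθ1 : θ * (1 + ε) = τ' * (τ' - 1) := by rw [hθ]; field_simp
  set η : ℝ := θ * ε / ((M : ℝ) + K) with hη
  have hηp : 0 < η := by positivity
  have hη1 : η * ((M : ℝ) + K) = θ * ε := by rw [hη]; field_simp
  have hst : 0 < τ * (1 - τ) := mul_pos ht0 (by linarith)
  let c : Lab M K → ℝ := fun x => match x with
    | Sum.inl _ => η
    | Sum.inr (Sum.inl k) => if k = j then θ else 0
    | Sum.inr (Sum.inr k) => η + if k = j then τ * (1 - τ) else 0
  refine ⟨(1 - τ) * (τ' - 1) * (τ' - τ), τ * τ' * (τ' - τ), c, ?_, ?_, ?_, ?_⟩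
  · rintro (i | k | k)
    · exact hηp.le
    · show 0 ≤ if k = j then θ else 0
      split_ifs
      · exact hθp.le
      · exact le_rfl
    · show 0 ≤ η + if k = j then τ * (1 - τ) else 0
      split_ifs
      · linarith
      · linarith
  · show 0 < if j = j then θ else 0
    rw [if_pos rfl]; exact hθp
  · rw [Fintype.sum_sum_type, Fintype.sum_sum_type]
    show ∑ i : Fin M, η + (∑ k : Fin K, (if k = j then θ else 0) +
      ∑ k : Fin K, (η + if k = j then τ * (1 - τ) else 0)) = _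
    rw [Finset.sum_add_distrib]
    simp only [Finset.sum_const, Finset.card_univ, Fintype.card_fin, nsmul_eq_mul,
      Finset.sum_ite_eq', Finset.mem_univ, if_true]
    linear_combination hη1 + hθ1
  · rw [Fintype.sum_sum_type, Fintype.sum_sum_type]
    show _ = ∑ i : Fin M, η • ver (pos (Sum.inl i)) +
      (∑ k : Fin K, (if k = j then θ else 0) • vtx pos ε (Sum.inr (Sum.inl k)) +
      ∑ k : Fin K, (η + if k = j then τ * (1 - τ) else 0) • ver (pos (Sum.inr (Sum.inr k))))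
    have e1 : ∑ k : Fin K, (if k = j then θ else 0) • vtx pos ε (Sum.inr (Sum.inl k) : Lab M K) =
        θ • vtx pos ε (Sum.inr (Sum.inl j) : Lab M K) := by
      simp only [ite_smul, zero_smul, Finset.sum_ite_eq', Finset.mem_univ, if_true]
    have e2 : ∑ k : Fin K, (η + if k = j then τ * (1 - τ) else 0) •
        ver (pos (Sum.inr (Sum.inr k) : Lab M K)) =
        η • ∑ k : Fin K, ver (pos (Sum.inr (Sum.inr k) : Lab M K)) +
          (τ * (1 - τ)) • ver (pos (Sum.inr (Sum.inr j) : Lab M K)) := by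
      simp only [add_smul, Finset.sum_add_distrib, ite_smul, zero_smul, Finset.sum_ite_eq',
        Finset.mem_univ, if_true, Finset.smul_sum]
    rw [e1, e2, ← Finset.smul_sum]
    have e3 : vtx pos ε (Sum.inr (Sum.inl j) : Lab M K) = (1 + ε) • ver (pos (Sum.inr (Sum.inl j))) -
      ε • ((1 / ((M : ℝ) + K)) • (∑ i : Fin M, ver (pos (Sum.inl i)) +
        ∑ j : Fin K, ver (pos (Sum.inr (Sum.inr j))))) := rfl
    rw [e3]
    have h1 := ver_line (pos (Sum.inl (u j))) (pos (Sum.inl (v j))) τ τ'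
    rw [← hc.hr j, ← hc.hs j] at h1
    show ((1 - τ) * (τ' - 1) * (τ' - τ)) • ver (pos (Sum.inl (u j))) +
      (τ * τ' * (τ' - τ)) • ver (pos (Sum.inl (v j))) = _
    rw [← h1]
    have h2 : θ * ε * (1 / ((M : ℝ) + K)) = η := by rw [hη]; ring
    rw [smul_sub, smul_smul, smul_smul, smul_smul, hθ1, h2, smul_add]
    abel

theorem core (huv : ∀ j, u j ≠ v j) (hinj : Function.Injective (fun j => s(u j, v j)))
    (hM : 7 ≤ M) (hc : Cfg u v pos t t')
    (hy : ∀ i : Fin M, pos (Sum.inl i) = (((i : ℕ) : ℝ) + 1, (((i : ℕ) : ℝ) + 1) ^ 3)) :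
    IsPolytopal 5 (H0 u v) := by
  classical
  have hE := good_pairs hc huv hinj (by omega)
  have hV : ∀ᶠ ε in 𝓝[>] (0 : ℝ), ∀ a : Lab M K, ∃ f, IsQ f ∧ val pos ε f a = 0 ∧
      ∀ x, x ≠ a → 0 < val pos ε f x := by
    rw [Filter.eventually_all]
    exact fun a => val_vert hc a
  obtain ⟨ε, ⟨hE, hV⟩, hε⟩ := ((hE.and hV).and self_mem_nhdsWithin).exists
  have hε : 0 < ε := hε
  have hM0 : 0 < M := by omega
  haveI : Nonempty (Lab M K) := ⟨Sum.inl ⟨0, hM0⟩⟩
  refine gen 5 (Lab M K) (H0 u v) (vtx pos ε) ?_ ?_ ?_ ?_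
  · intro l b h
    obtain ⟨c, hc0, hl⟩ := lf_surj l b
    rw [hl]
    apply coef_zero
    intro i
    have h1 := h (Sum.inl ⟨i, by omega⟩)
    rw [hl, ← hc0, lf_vtx hM0 pos ε (qd c) c (fun z => rfl)] at h1
    have h2 : qd c (pos (Sum.inl ⟨i, by omega⟩)) = 0 := h1
    rw [hy] at h2
    exact h2
  · intro a
    obtain ⟨f, ⟨c, hf⟩, ha, hx⟩ := hV a
    refine ⟨lf c, c 0, ?_, fun w hw => ?_⟩
    · rw [lf_vtx hM0 pos ε f c hf]; exact ha
    · rw [lf_vtx hM0 pos ε f c hf]; exact hx w hw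
  · intro a b hab
    obtain ⟨f, ⟨c, hf⟩, ha, hb, hx⟩ := hE a b hab
    refine ⟨lf c, c 0, ?_, ?_, fun w hw hw' => ?_⟩
    · rw [lf_vtx hM0 pos ε f c hf]; exact ha
    · rw [lf_vtx hM0 pos ε f c hf]; exact hb
    · rw [lf_vtx hM0 pos ε f c hf]; exact hx w hw hw'
  · intro a b hab hadj
    have h1 : (∃ j, a = Sum.inl (u j) ∧ b = Sum.inl (v j)) ∨
        ∃ j, b = Sum.inl (u j) ∧ a = Sum.inl (v j) := by
      by_contra hcon
      push Not at hcon
      exact hadj ⟨hab, fun j h => hcon.1 j h.1 h.2, fun j h => hcon.2 j h.1 h.2⟩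
    rcases h1 with ⟨j, ha, hb⟩ | ⟨j, hb, ha⟩
    · obtain ⟨x, y, c, h1, h2, h3, h4⟩ := kill hM0 hc ε hε j
      refine ⟨x, y, c, Sum.inr (Sum.inl j), ?_, ?_, h1, h2, h3, ?_⟩
      · rw [ha]; simp
      · rw [hb]; simp
      · rw [ha, hb]; exact h4
    · obtain ⟨x, y, c, h1, h2, h3, h4⟩ := kill hM0 hc ε hε j
      refine ⟨y, x, c, Sum.inr (Sum.inl j), ?_, ?_, h1, h2, ?_, ?_⟩
      · rw [ha]; simp
      · rw [hb]; simp
      · rw [h3]; ring
      · rw [ha, hb, add_comm]; exact h4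

end core

theorem col_cubic (a b c : ℝ) : Col (a, a ^ 3) (b, b ^ 3) (c, c ^ 3) =
    (b - a) * (c - a) * (c - b) * (a + b + c) := by
  simp only [Col]; ring

theorem u5 (hG2 : S_G2) : S_U5 := by
  classical
  intro V _ G
  let T : Type := {e : Sym2 V // e ∈ Gᶜ.edgeSet}
  haveI : Fintype T := Fintype.ofFinite T
  let eT : Fin (Fintype.card T) ≃ T := (Fintype.equivFin T).symm
  set K := Fintype.card T
  have hab : ∀ j : Fin K, ∃ ab : V × V, s(ab.1, ab.2) = (eT j).1 := by
    intro j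
    obtain ⟨e, he⟩ := eT j
    induction e using Sym2.ind with
    | _ x y => exact ⟨(x, y), rfl⟩
  choose ab hab using hab
  have hadj : ∀ j, Gᶜ.Adj (ab j).1 (ab j).2 := by
    intro j
    have := (eT j).2
    rw [← hab j] at this
    exact this
  let eV : V ≃ Fin (Fintype.card V) := Fintype.equivFin V
  let φ : V → Fin (Fintype.card V + 7) := fun x => Fin.castAdd 7 (eV x)
  have hφ : Function.Injective φ := (Fin.castAdd_injective _ _).comp eV.injective
  let u : Fin K → Fin (Fintype.card V + 7) := fun j => φ (ab j).1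
  let v : Fin K → Fin (Fintype.card V + 7) := fun j => φ (ab j).2
  have huv : ∀ j, u j ≠ v j := fun j h => (hadj j).ne (hφ h)
  have hinj : Function.Injective (fun j => s(u j, v j)) := by
    intro i j hij
    have h1 : Sym2.map φ (eT i).1 = Sym2.map φ (eT j).1 := by
      rw [← hab i, ← hab j]; exact hij
    have h2 := Sym2.map.injective hφ h1
    exact eT.injective (Subtype.ext h2)
  obtain ⟨pos, t, t', hy, hc⟩ := hG2 (Fintype.card V + 7) K u v
    (fun i => (((i : ℕ) : ℝ) + 1, (((i : ℕ) : ℝ) + 1) ^ 3)) huv hinj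
    (fun i j h => by
      have h1 := congrArg Prod.fst h
      simp only [add_left_inj, Nat.cast_inj] at h1
      exact Fin.ext h1)
    (fun a b c h1 h2 h3 => by
      rw [col_cubic]
      have ha : (((a : ℕ) : ℝ)) ≠ (b : ℕ) := fun h => h1 (Fin.ext (Nat.cast_injective h))
      have hb : (((a : ℕ) : ℝ)) ≠ (c : ℕ) := fun h => h2 (Fin.ext (Nat.cast_injective h))
      have hc : (((b : ℕ) : ℝ)) ≠ (c : ℕ) := fun h => h3 (Fin.ext (Nat.cast_injective h))
      refine mul_ne_zero (mul_ne_zero (mul_ne_zero ?_ ?_) ?_) (by positivity)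
      · intro h; apply ha; linarith
      · intro h; apply hb; linarith
      · intro h; apply hc; linarith)
  have hcore := core huv hinj (by omega) hc hy
  refine ⟨7 + (K + K), by omega, ?_⟩
  -- the isomorphism
  let ψ : V ⊕ Fin (7 + (K + K)) ≃ Lab (Fintype.card V + 7) K :=
    (Equiv.sumCongr eV ((finSumFinEquiv (m := 7) (n := K + K)).symm.trans
      (Equiv.sumCongr (Equiv.refl _) (finSumFinEquiv (m := K) (n := K)).symm))).trans
      ((Equiv.sumAssoc _ _ _).symm.trans (Equiv.sumCongr finSumFinEquiv (Equiv.refl _)))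
  have hψ1 : ∀ x : V, ψ (Sum.inl x) = Sum.inl (φ x) := fun x => rfl
  have hψ2 : ∀ (k : Fin (7 + (K + K))) (x : V), ψ (Sum.inr k) ≠ Sum.inl (φ x) := by
    intro k x h
    have := ψ.injective (h.trans (hψ1 x).symm)
    cases this
  refine polytopal_iso (H' := H0 u v) ⟨ψ, ?_⟩ 5 hcore
  intro a b
  show (ψ a ≠ ψ b ∧ (∀ j, ¬ (ψ a = Sum.inl (u j) ∧ ψ b = Sum.inl (v j))) ∧
    ∀ j, ¬ (ψ b = Sum.inl (u j) ∧ ψ a = Sum.inl (v j))) ↔
    (a ≠ b ∧ ∀ u v, a = Sum.inl u → b = Sum.inl v → G.Adj u v)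
  rcases a with x | k
  · rcases b with y | k'
    · rw [hψ1, hψ1]
      constructor
      · rintro ⟨h1, h2, h3⟩
        have hxy : x ≠ y := fun h => h1 (by rw [h])
        refine ⟨fun h => hxy (Sum.inl_injective h), ?_⟩
        rintro a b ha hb
        obtain rfl := Sum.inl_injective ha
        obtain rfl := Sum.inl_injective hb
        by_contra hcon
        have hmem : s(x, y) ∈ Gᶜ.edgeSet := by
          rw [SimpleGraph.mem_edgeSet, SimpleGraph.compl_adj]; exact ⟨hxy, hcon⟩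
        set j0 : Fin K := eT.symm ⟨s(x, y), hmem⟩ with hj0
        have hj := hab j0
        rw [hj0, Equiv.apply_symm_apply] at hj
        rw [← hj0] at hj
        rcases Sym2.eq_iff.1 hj with ⟨ha, hb⟩ | ⟨ha, hb⟩
        · refine h2 j0 ⟨?_, ?_⟩
          · show Sum.inl (φ x) = Sum.inl (φ (ab j0).1)
            rw [ha]
          · show Sum.inl (φ y) = Sum.inl (φ (ab j0).2)
            rw [hb]
        · refine h3 j0 ⟨?_, ?_⟩
          · show Sum.inl (φ y) = Sum.inl (φ (ab j0).1)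
            rw [ha]
          · show Sum.inl (φ x) = Sum.inl (φ (ab j0).2)
            rw [hb]
      · rintro ⟨h1, h2⟩
        have h2 : G.Adj x y := h2 x y rfl rfl
        refine ⟨fun h => h1 ?_, fun j h => ?_, fun j h => ?_⟩
        · rw [hφ (Sum.inl_injective h)]
        · have e1 : x = (ab j).1 := hφ (Sum.inl_injective h.1)
          have e2 : y = (ab j).2 := hφ (Sum.inl_injective h.2)
          have := hadj j
          rw [← e1, ← e2, SimpleGraph.compl_adj] at this
          exact this.2 h2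
        · have e1 : y = (ab j).1 := hφ (Sum.inl_injective h.1)
          have e2 : x = (ab j).2 := hφ (Sum.inl_injective h.2)
          have := hadj j
          rw [← e1, ← e2, SimpleGraph.compl_adj] at this
          exact this.2 h2.symm
    · refine ⟨fun h => ⟨fun h' => h.1 (by rw [h']), fun _ _ _ h' => by cases h'⟩, fun h => ⟨fun h' => h.1 (ψ.injective h'), fun j h' => hψ2 _ _ h'.2, fun j h' => hψ2 _ _ h'.1⟩⟩
  · refine ⟨fun h => ⟨fun h' => h.1 (by rw [h']), fun _ _ h' => by cases h'⟩, fun h => ⟨fun h' => h.1 (ψ.injective h'), fun j h' => hψ2 _ _ h'.1, fun j h' => hψ2 _ _ h'.2⟩⟩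

end Pool.Agent.W2helper1.DG
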